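import Pool.Agent.QSB.StmtsC

/-!
# Squad QSB, row CLN (port of `Helper17_QSN/CLN.lean`)
-/

set_option autoImplicit false

namespace Pool.Agent.QSB.H34

open Matrix Finset Pool.Agent.QSX Pool.Agent.QSN Pool.Agent.QSB

theorem np_of {X : Dat} (hX : MB X) {t k l₀ : hX.ι} (h : hX.rt t = hX.rt l₀)
    (hk : ∀ c : ℝ, hX.rt k ≠ c • hX.rt l₀) : hX.Np t k := by
  intro c hc
  obtain ⟨a, ha⟩ := hX.pos
  have hc0 : c ≠ 0 := by
    rintro rfl
    have h1 := ha t
    rw [hc, zero_smul] at h1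
    exact lt_irrefl _ h1
  apply hk c⁻¹
  rw [← h, hc, smul_smul, inv_mul_cancel₀ hc0, one_smul]

theorem bad_iff {X : Dat} (hX : MB X) {V : Type} [AddCommGroup V] [Module ℝ V] (C : hX.ι → V)
    (ρ : X.b →ₗ[ℝ] ℝ) :
    (¬ LinearIndependent ℝ fun t : {t : hX.ι // hX.rt t = ρ} => C t.1) ↔
      ∃ w : hX.ι → ℝ, (∀ t, hX.rt t ≠ ρ → w t = 0) ∧ ∑ t, w t • C t = 0 ∧ ∃ t, w t ≠ 0 := by
  classical
  rw [Fintype.not_linearIndependent_iff]
  constructor
  · rintro ⟨g, hg, i, hi⟩
    obtain ⟨w, hw⟩ : ∃ w : hX.ι → ℝ, w = fun t => if h : hX.rt t = ρ then g ⟨t, h⟩ else 0 :=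
      ⟨_, rfl⟩
    have hw0 : ∀ t, hX.rt t ≠ ρ → w t = 0 := by
      intro t ht
      rw [hw]
      exact dif_neg ht
    have hw1 : ∀ t : {t : hX.ι // hX.rt t = ρ}, w t.1 = g t := by
      intro t
      rw [hw]
      exact dif_pos t.2
    refine ⟨w, hw0, ?_, i.1, by rw [hw1]; exact hi⟩
    calc ∑ t, w t • C t = ∑ t ∈ Finset.univ.filter (fun t => hX.rt t = ρ), w t • C t := by
          rw [Finset.sum_filter]
          refine Finset.sum_congr rfl fun t _ => ?_
          by_cases h : hX.rt t = ρ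
          · rw [if_pos h]
          · rw [if_neg h, hw0 t h, zero_smul]
      _ = ∑ t : {t : hX.ι // hX.rt t = ρ}, w t.1 • C t.1 :=
          Finset.sum_subtype _ (fun x => by simp) _
      _ = 0 := by
          rw [← hg]
          exact Finset.sum_congr rfl fun t _ => by rw [hw1]
  · rintro ⟨w, hw, hs, i, hi⟩
    have hi' : hX.rt i = ρ := by
      by_contra h
      exact hi (hw i h)
    refine ⟨fun t => w t.1, ?_, ⟨i, hi'⟩, hi⟩
    calc ∑ t : {t : hX.ι // hX.rt t = ρ}, w t.1 • C t.1 =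
        ∑ t ∈ Finset.univ.filter (fun t => hX.rt t = ρ), w t • C t :=
          (Finset.sum_subtype (p := fun t => hX.rt t = ρ) (Finset.univ.filter
            fun t => hX.rt t = ρ) (fun x => by simp) (fun t => w t • C t)).symm
      _ = ∑ t, w t • C t := by
          rw [Finset.sum_filter]
          refine Finset.sum_congr rfl fun t _ => ?_
          by_cases h : hX.rt t = ρ
          · rw [if_pos h]
          · rw [if_neg h, hw t h, zero_smul]
      _ = 0 := hs

theorem cln (brn : BrnStmt) : ClnStmt := by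
  intro X hX m C hbr htop l₁
  obtain ⟨T, hT⟩ : ∃ T : Matrix (Fin X.m) (Fin X.m) ℝ →ₗ[ℝ] Matrix (Fin m) (Fin m) ℝ,
      ∀ l, T (hX.e l) = C l := by
    obtain ⟨T, hT⟩ := LinearMap.exists_extend ((Module.Basis.span hX.lin).constr ℝ C)
    refine ⟨T, fun l => ?_⟩
    have h1 := congrArg (fun f => f (Module.Basis.span hX.lin l)) hT
    simp only [LinearMap.comp_apply, Submodule.subtype_apply, Module.Basis.constr_basis] at h1
    rw [Module.Basis.span_apply] at h1
    exact h1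
  have hbrT : ∀ l k, T (hX.br hX.e l k) = hX.br C l k := by
    intro l k
    rw [MB.br, MB.br, map_list_sum, List.map_map]
    congr 1
    refine List.map_congr_left fun t _ => ?_
    change T _ = _
    rw [map_smul, hT]
  have hstar : ∀ l k, hX.Np l k →
      T (hX.e l * hX.e k - hX.e k * hX.e l) = C l * C k - C k * C l := by
    intro l k h
    rw [brn X hX l k h, hbrT, hbr l k h]
  by_contra hl₁
  obtain ⟨a, ha⟩ := hX.pos
  obtain ⟨l₀, hl₀, hmax⟩ := Set.exists_max_image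
    {l : hX.ι | ¬ LinearIndependent ℝ fun t : {t : hX.ι // hX.rt t = hX.rt l} => C t.1}
    (fun l => hX.rt l a) (Set.toFinite _) ⟨l₁, hl₁⟩
  have hne : hX.rt l₀ ≠ hX.rt (hX.top (hX.comp l₀)) := by
    intro h
    apply hl₀
    have := htop l₀
    rw [← h] at this
    exact this
  obtain ⟨w, hw, hs, i, hi⟩ := (bad_iff hX C (hX.rt l₀)).1 hl₀
  have hxm : ∑ t, w t • hX.e t ∈ Submodule.span ℝ (hX.e '' {l' | hX.rt l' = hX.rt l₀}) := by
    refine Submodule.sum_mem _ fun t _ => ?_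
    by_cases h : hX.rt t = hX.rt l₀
    · exact Submodule.smul_mem _ _ (Submodule.subset_span ⟨t, h, rfl⟩)
    · rw [hw t h, zero_smul]
      exact Submodule.zero_mem _
  have hx0 : ∑ t, w t • hX.e t ≠ 0 := by
    intro h
    exact hi (Fintype.linearIndependent_iff.1 hX.lin w h i)
  have hk : ∃ k, (∀ c : ℝ, hX.rt k ≠ c • hX.rt l₀) ∧
      (∑ t, w t • hX.e t) * hX.e k - hX.e k * (∑ t, w t • hX.e t) ≠ 0 := by
    by_contra hcon
    push Not at hcon
    exact hx0 (hX.climb l₀ hne _ hxm hcon)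
  obtain ⟨k, hk1, hk2⟩ := hk
  have hu : (∑ t, w t • hX.e t) * hX.e k - hX.e k * (∑ t, w t • hX.e t) =
      ∑ t, w t • (hX.e t * hX.e k - hX.e k * hX.e t) := by
    rw [Finset.sum_mul, Finset.mul_sum, ← Finset.sum_sub_distrib]
    refine Finset.sum_congr rfl fun t _ => ?_
    rw [smul_sub, smul_mul_assoc, mul_smul_comm]
  have hTu : T (∑ t, w t • (hX.e t * hX.e k - hX.e k * hX.e t)) = 0 := by
    have h1 : T (∑ t, w t • (hX.e t * hX.e k - hX.e k * hX.e t)) =
        (∑ t, w t • C t) * C k - C k * (∑ t, w t • C t) := by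
      rw [map_sum, Finset.sum_mul, Finset.mul_sum, ← Finset.sum_sub_distrib]
      refine Finset.sum_congr rfl fun t _ => ?_
      by_cases h : hX.rt t = hX.rt l₀
      · rw [map_smul, hstar t k (np_of hX h hk1), smul_sub, smul_mul_assoc,
          mul_smul_comm]
      · rw [hw t h, zero_smul, map_zero, zero_smul, zero_mul, mul_zero, sub_zero]
    rw [h1, hs, zero_mul, mul_zero, sub_zero]
  have hum : ∑ t, w t • (hX.e t * hX.e k - hX.e k * hX.e t) ∈
      Submodule.span ℝ (hX.e '' {s | hX.rt s = hX.rt l₀ + hX.rt k}) := by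
    refine Submodule.sum_mem _ fun t _ => ?_
    by_cases h : hX.rt t = hX.rt l₀
    · refine Submodule.smul_mem _ _ ?_
      rw [brn X hX t k (np_of hX h hk1), MB.br]
      refine list_sum_mem fun y hy => ?_
      obtain ⟨s, hs1, rfl⟩ := List.mem_map.1 hy
      rw [List.mem_filter] at hs1
      obtain ⟨hs2, hs3⟩ := hs1
      have hs4 : s.2.1 = 1 ∧ s.2.2.1 = 1 := by simpa using hs3
      refine Submodule.smul_mem _ _ (Submodule.subset_span ⟨s.1, ?_, rfl⟩)
      change hX.rt s.1 = _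
      rw [(hX.L_rt t k s hs2).2.2, hs4.1, hs4.2, h, Nat.cast_one, one_smul, one_smul]
    · rw [hw t h, zero_smul]
      exact Submodule.zero_mem _
  obtain ⟨y, hy1, hy2⟩ := (Finsupp.mem_span_image_iff_linearCombination ℝ).1 hum
  have hy3 : ∀ s, hX.rt s ≠ hX.rt l₀ + hX.rt k → y s = 0 := by
    intro s hs'
    by_contra h
    exact hs' ((Finsupp.mem_supported ℝ y).1 hy1 (Finsupp.mem_support_iff.2 h))
  rw [Finsupp.linearCombination_apply, Finsupp.sum_fintype _ _ (by simp)] at hy2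
  obtain ⟨s₀, hs₀⟩ : ∃ s, y s ≠ 0 := by
    by_contra hcon
    push Not at hcon
    apply hk2
    rw [hu, ← hy2]
    exact Finset.sum_eq_zero fun s _ => by rw [hcon s, zero_smul]
  have hs₁ : hX.rt s₀ = hX.rt l₀ + hX.rt k := by
    by_contra h
    exact hs₀ (hy3 s₀ h)
  have hbad : ¬ LinearIndependent ℝ fun t : {t : hX.ι // hX.rt t = hX.rt s₀} => C t.1 := by
    rw [bad_iff hX C (hX.rt s₀)]
    refine ⟨y, fun t ht => hy3 t (by rw [← hs₁]; exact ht), ?_, s₀, hs₀⟩
    rw [← hTu, ← hy2, map_sum]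
    refine Finset.sum_congr rfl fun t _ => ?_
    rw [map_smul, hT]
  have h1 := hmax s₀ hbad
  rw [hs₁] at h1
  have h2 := ha k
  simp only [LinearMap.add_apply] at h1
  linarith

end Pool.Agent.QSB.H34
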