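import Pool.Agent.QSB.StmtsS

set_option autoImplicit false

namespace Pool.Agent.QSB.H34

open Matrix Finset Pool.Agent.QSX Pool.Agent.QSB

section
variable {X : Dat}

lemma ip_zero_left' (ν : X.b →ₗ[ℝ] ℝ) : ip X 0 ν = 0 := by
  rw [← ip_eq]
  rfl

lemma ip_zero_right' (ν : X.b →ₗ[ℝ] ℝ) : ip X ν 0 = 0 := by
  rw [ip_comm, ip_zero_left']

lemma ip_list (A B : Set (X.b →ₗ[ℝ] ℝ)) (ho : ∀ α ∈ A, ∀ β ∈ B, ip X α β = 0)
    (L M : List (X.b →ₗ[ℝ] ℝ)) (hL : ∀ α ∈ L, α ∈ A) (hM : ∀ β ∈ M, β ∈ B) :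
    ip X L.sum M.sum = 0 := by
  induction L with
  | nil => rw [List.sum_nil, ip_zero_left']
  | cons a L ih =>
    rw [List.sum_cons, ip_add_left, ih (fun α h => hL α (List.mem_cons_of_mem _ h)), add_zero]
    have ha : a ∈ A := hL a List.mem_cons_self
    clear ih hL
    induction M with
    | nil => rw [List.sum_nil, ip_zero_right']
    | cons b M ihM =>
      rw [List.sum_cons, ip_add_right, ihM (fun β h => hM β (List.mem_cons_of_mem _ h)),
        ho a ha b (hM b List.mem_cons_self), add_zero]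

lemma split_list (A B : Set (X.b →ₗ[ℝ] ℝ)) (N : List (X.b →ₗ[ℝ] ℝ))
    (h : ∀ α ∈ N, α ∈ A ∨ α ∈ B) :
    ∃ NA NB : List (X.b →ₗ[ℝ] ℝ), (∀ α ∈ NA, α ∈ A) ∧ (∀ α ∈ NB, α ∈ B) ∧
      N.sum = NA.sum + NB.sum := by
  induction N with
  | nil => exact ⟨[], [], by simp, by simp, by simp⟩
  | cons a N ih =>
    obtain ⟨NA, NB, h1, h2, h3⟩ := ih (fun α hα => h α (List.mem_cons_of_mem _ hα))
    rcases h a List.mem_cons_self with ha | ha
    · refine ⟨a :: NA, NB, ?_, h2, ?_⟩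
      · intro α hα
        rcases List.mem_cons.1 hα with e | e
        · rw [e]
          exact ha
        · exact h1 α e
      · rw [List.sum_cons, List.sum_cons, h3, add_assoc]
    · refine ⟨NA, a :: NB, h1, ?_, ?_⟩
      · intro α hα
        rcases List.mem_cons.1 hα with e | e
        · rw [e]
          exact ha
        · exact h2 α e
      · rw [List.sum_cons, List.sum_cons, h3, add_left_comm]

lemma sum_nonneg (a : X.b) (L : List (X.b →ₗ[ℝ] ℝ)) (h : ∀ α ∈ L, 0 ≤ α a) : 0 ≤ L.sum a := by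
  induction L with
  | nil => simp
  | cons b L ih =>
    rw [List.sum_cons, LinearMap.add_apply]
    exact add_nonneg (h b List.mem_cons_self) (ih (fun α hα => h α (List.mem_cons_of_mem _ hα)))

lemma mix (gwb : GwbStmt) (int : IntStmt) (smr : SmrStmt) (S : Sym X) (hR : Nonempty (RBas X))
    (A B : Set (X.b →ₗ[ℝ] ℝ)) (hAB : ∀ α, Smp X α → α ∈ A ∨ α ∈ B)
    (hA : ∀ α ∈ A, Smp X α) (hB : ∀ α ∈ B, Smp X α)
    (ho : ∀ α ∈ A, ∀ β ∈ B, ip X α β = 0) (σ τ : X.b →ₗ[ℝ] ℝ) (hσ : IsRt X σ) (hτ : IsRt X τ)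
    (hρ : IsRt X (σ + τ)) (L M : List (X.b →ₗ[ℝ] ℝ)) (hL : ∀ α ∈ L, α ∈ A) (hLs : L.sum = σ)
    (hM : ∀ α ∈ M, α ∈ B) (hMs : M.sum = τ) : False := by
  obtain ⟨g1, g2, g3, g4, g5⟩ := gwb X S
  have posRt : ∀ ρ, IsRt X ρ → 0 < ρ S.a₀ := by
    rintro ρ ⟨x, hx⟩
    exact (g1 ρ x hx).2
  have posA : ∀ L : List (X.b →ₗ[ℝ] ℝ), (∀ α ∈ L, α ∈ A) → 0 ≤ L.sum S.a₀ := by
    intro L hL
    exact sum_nonneg _ L fun α hα => (posRt α (hA α (hL α hα)).1).le
  have posB : ∀ L : List (X.b →ₗ[ℝ] ℝ), (∀ α ∈ L, α ∈ B) → 0 ≤ L.sum S.a₀ := by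
    intro L hL
    exact sum_nonneg _ L fun α hα => (posRt α (hB α (hL α hα)).1).le
  have hστ : ip X σ τ = 0 := by
    rw [← hLs, ← hMs]
    exact ip_list A B ho L M hL hM
  have hσp := posRt σ hσ
  have hτp := posRt τ hτ
  obtain ⟨w, hw⟩ := hρ
  obtain ⟨y, hy⟩ := hτ
  have hgw := (g1 _ w hw).1
  have hgy := g3 _ _ (g1 _ y hy).1
  have hτ0 : -τ ≠ 0 := by
    intro h
    have h1 : τ = 0 := neg_eq_zero.1 h
    rw [h1] at hτp
    simp at hτp
  have hip : ip X (σ + τ) (-τ) = - ip X (-τ) (-τ) := by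
    rw [ip_add_left, ip_neg_right, ip_neg_right, ip_neg_left, ip_neg_right, hστ]
    ring
  have hne := (int X S (-τ) (σ + τ) yᵀ w hgy hτ0 hgw).2.2 hip
  have hu : yᵀ * w - w * yᵀ ≠ 0 := by
    intro h
    apply hne
    rw [h, mul_zero, zero_mul, sub_zero]
  have hgu := g4 _ _ _ _ hgy hgw hu
  have hgv := g4 _ _ _ _ hgy hgu hne
  have hwt : -τ + (-τ + (σ + τ)) = σ - τ := by abel
  rw [hwt] at hgv
  have h0 : (σ - τ) S.a₀ ≠ 0 := by
    intro h
    have h1 := g5 _ _ hgv h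
    have h2 : σ = τ := sub_eq_zero.1 h1
    rw [← h2] at hστ
    have h3 := ip_self_eq_zero hστ
    rw [h3] at hσp
    simp at hσp
  rcases lt_or_gt_of_ne h0 with hlt | hgt
  · -- `τ - σ` is a root
    have hgv' := g3 _ _ hgv
    rw [neg_sub] at hgv'
    have hp : 0 < (τ - σ) S.a₀ := by
      have : (σ - τ) S.a₀ = σ S.a₀ - τ S.a₀ := rfl
      have h2 : (τ - σ) S.a₀ = τ S.a₀ - σ S.a₀ := rfl
      rw [h2]
      rw [this] at hlt
      linarith
    have hrt : IsRt X (τ - σ) := ⟨_, g2 _ _ hgv' hp⟩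
    obtain ⟨N, hN, hNs⟩ := smr X ⟨S⟩ hR _ hrt
    obtain ⟨NA, NB, hNA, hNB, hs⟩ := split_list A B N fun α hα => hAB α (hN α hα)
    have e1 : σ + NA.sum = τ - NB.sum := by
      have : τ - σ = NA.sum + NB.sum := by rw [← hNs, hs]
      have h2 : τ = σ + (NA.sum + NB.sum) := by rw [← this]; abel
      rw [h2]
      abel
    have e2 : ip X (σ + NA.sum) (σ + NA.sum) = 0 := by
      nth_rewrite 2 [e1]
      rw [ip_sub_right, ip_add_left, ip_add_left, hστ, ← hMs, ← hLs,
        ip_list A B ho NA M hNA hM, ip_list A B ho L NB hL hNB, ip_list A B ho NA NB hNA hNB]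
      ring
    have e3 := ip_self_eq_zero e2
    have e4 : (σ + NA.sum) S.a₀ = 0 := by rw [e3]; rfl
    have e5 : (σ + NA.sum) S.a₀ = σ S.a₀ + NA.sum S.a₀ := rfl
    have e6 := posA NA hNA
    linarith
  · have hrt : IsRt X (σ - τ) := ⟨_, g2 _ _ hgv hgt⟩
    obtain ⟨N, hN, hNs⟩ := smr X ⟨S⟩ hR _ hrt
    obtain ⟨NA, NB, hNA, hNB, hs⟩ := split_list A B N fun α hα => hAB α (hN α hα)
    have e1 : τ + NB.sum = σ - NA.sum := by
      have : σ - τ = NA.sum + NB.sum := by rw [← hNs, hs]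
      have h2 : σ = τ + (NA.sum + NB.sum) := by rw [← this]; abel
      rw [h2]
      abel
    have e2 : ip X (τ + NB.sum) (τ + NB.sum) = 0 := by
      nth_rewrite 1 [e1]
      rw [ip_sub_left, ip_add_right, ip_add_right, hστ, ← hMs, ← hLs,
        ip_list A B ho NA M hNA hM, ip_list A B ho L NB hL hNB, ip_list A B ho NA NB hNA hNB]
      ring
    have e3 := ip_self_eq_zero e2
    have e4 : (τ + NB.sum) S.a₀ = 0 := by rw [e3]; rfl
    have e5 : (τ + NB.sum) S.a₀ = τ S.a₀ + NB.sum S.a₀ := rfl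
    have e6 := posB NB hNB
    linarith

end

theorem sup (gwb : GwbStmt) (int : IntStmt) (wtr : WtrStmt) (smr : SmrStmt) : SupStmt := by
  intro X hS hR A B hAB hA hB ho
  obtain ⟨S⟩ := hS
  obtain ⟨R⟩ := hR
  have g1 := (gwb X S).1
  have posRt : ∀ ρ, IsRt X ρ → 0 < ρ S.a₀ := by
    rintro ρ ⟨x, hx⟩
    exact (g1 ρ x hx).2
  have main : ∀ n : ℕ, ∀ ρ, IsRt X ρ →
      (Finset.univ.filter (fun l => R.rt l S.a₀ < ρ S.a₀)).card = n →
      (∃ L : List (X.b →ₗ[ℝ] ℝ), (∀ α ∈ L, α ∈ A) ∧ L.sum = ρ) ∨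
      ∃ L : List (X.b →ₗ[ℝ] ℝ), (∀ α ∈ L, α ∈ B) ∧ L.sum = ρ := by
    intro n
    induction n using Nat.strong_induction_on with
    | _ n ih =>
      intro ρ hρ hn
      by_cases hs : Smp X ρ
      · rcases hAB ρ hs with h | h
        · left
          refine ⟨[ρ], ?_, by simp⟩
          intro α hα
          rw [List.mem_singleton] at hα
          rw [hα]
          exact h
        · right
          refine ⟨[ρ], ?_, by simp⟩
          intro α hα
          rw [List.mem_singleton] at hα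
          rw [hα]
          exact h
      · have hex : ∃ σ τ, IsRt X σ ∧ IsRt X τ ∧ σ + τ = ρ := by
          by_contra hcon
          apply hs
          refine ⟨hρ, ?_⟩
          intro σ τ h1 h2 h3
          exact hcon ⟨σ, τ, h1, h2, h3⟩
        obtain ⟨σ, τ, hσ, hτ, hst⟩ := hex
        have hsm : ∀ κ, IsRt X κ → κ S.a₀ < ρ S.a₀ →
            (Finset.univ.filter (fun l => R.rt l S.a₀ < κ S.a₀)).card < n := by
          intro κ hκ hlt
          rw [← hn]
          apply Finset.card_lt_card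
          rw [Finset.ssubset_iff_of_subset]
          · obtain ⟨l, hl⟩ := (wtr X R κ).2.1 hκ
            refine ⟨l, ?_, ?_⟩
            · rw [Finset.mem_filter, hl]
              exact ⟨Finset.mem_univ _, hlt⟩
            · rw [Finset.mem_filter, hl]
              rintro ⟨-, h⟩
              exact lt_irrefl _ h
          · intro l hl
            rw [Finset.mem_filter] at hl ⊢
            exact ⟨Finset.mem_univ _, lt_trans hl.2 hlt⟩
        have hσp := posRt σ hσ
        have hτp := posRt τ hτ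
        have hρv : ρ S.a₀ = σ S.a₀ + τ S.a₀ := by rw [← hst]; rfl
        have iσ := ih _ (hsm σ hσ (by linarith)) σ hσ rfl
        have iτ := ih _ (hsm τ hτ (by linarith)) τ hτ rfl
        rcases iσ with ⟨L, hL, hLs⟩ | ⟨L, hL, hLs⟩
        · rcases iτ with ⟨M, hM, hMs⟩ | ⟨M, hM, hMs⟩
          · left
            refine ⟨L ++ M, ?_, ?_⟩
            · intro α hα
              rcases List.mem_append.1 hα with h | h
              · exact hL α h
              · exact hM α h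
            · rw [List.sum_append, hLs, hMs, hst]
          · exfalso
            rw [← hst] at hρ
            exact mix gwb int smr S ⟨R⟩ A B hAB hA hB ho σ τ hσ hτ hρ L M hL hLs hM hMs
        · rcases iτ with ⟨M, hM, hMs⟩ | ⟨M, hM, hMs⟩
          · exfalso
            rw [← hst] at hρ
            exact mix gwb int smr S ⟨R⟩ B A (fun α h => (hAB α h).symm) hB hA
              (fun α hα β hβ => by rw [ip_comm]; exact ho β hβ α hα) σ τ hσ hτ hρ L M hL hLs hM hMs
          · right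
            refine ⟨L ++ M, ?_, ?_⟩
            · intro α hα
              rcases List.mem_append.1 hα with h | h
              · exact hL α h
              · exact hM α h
            · rw [List.sum_append, hLs, hMs, hst]
  intro ρ hρ
  exact main _ ρ hρ rfl

end Pool.Agent.QSB.H34
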